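import Pool.Agent.Helper17_EU.WBasics
import Pool.Agent.Helper17_EU.StmtsT

/-! # Basic lemmas on walks along arcs (modules CONT, CONTFULL) -/

open Set Metric Topology unitInterval

noncomputable section

namespace Pool.Agent.EU.H13

universe u v

variable {X : Type u} [MetricSpace X] {ι : Type v} {𝓔 : EdgeSys X ι}

theorem not_mem_o_of_G {x : X} (hx : x ∈ 𝓔.G) (i : ι) : x ∉ 𝓔.o i := by
  intro h
  exact hx (mem_iUnion.2 ⟨i, h⟩)

theorem o_eq_of_mem {x : X} {i j : ι} (hi : x ∈ 𝓔.o i) (hj : x ∈ 𝓔.o j) : i = j := by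
  by_contra h
  exact disjoint_left.1 (𝓔.disj i j h) hi hj

theorem exists_o_seq (i : ι) (e : I) (he : e = 0 ∨ e = 1) {O : Set X} (hO : IsOpen O)
    (h : 𝓔.φ i e ∈ O) : (O ∩ 𝓔.o i).Nonempty := by
  have hpre : (𝓔.φ i ⁻¹' O) ∈ 𝓝 e := (hO.preimage (𝓔.φ i).continuous).mem_nhds h
  have hcl : e ∈ closure (Ioo (0 : I) 1) := by
    rw [closure_Ioo (by simp)]
    rcases he with rfl | rfl
    · exact ⟨le_rfl, zero_le_one⟩
    · exact ⟨zero_le_one, le_rfl⟩
  obtain ⟨t, ht1, ht2⟩ := mem_closure_iff_nhds.1 hcl _ hpre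
  exact ⟨𝓔.φ i t, ht1, t, ht2, rfl⟩

theorem end_mem_G (i : ι) (e : I) (he : e = 0 ∨ e = 1) : 𝓔.φ i e ∈ 𝓔.G := by
  intro h
  obtain ⟨j, hj⟩ := mem_iUnion.1 h
  by_cases hij : i = j
  · subst hij
    obtain ⟨t, ht, hte⟩ := hj
    have := 𝓔.inj i hte
    rcases he with rfl | rfl
    · exact (ne_of_gt ht.1) this
    · exact (ne_of_lt ht.2) this
  · obtain ⟨x, hx1, hx2⟩ := exists_o_seq i e he (𝓔.opn j) hj
    exact disjoint_left.1 (𝓔.disj i j hij) hx2 hx1

section arc

variable {a : 𝓔.Arc}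

theorem Runs.lt {i : ι} {b : Bool} {s t : I} (h : a.Runs i b s t) : s < t := h.1

theorem Runs.start_eq {i : ι} {b : Bool} {s t : I} (h : a.Runs i b s t) :
    a.f s = 𝓔.src (.edge i b : Step X ι) := by
  have := h.2.2.2
  cases b
  · simpa [EdgeSys.src] using this.1
  · simpa [EdgeSys.src] using this.1

theorem Runs.end_eq {i : ι} {b : Bool} {s t : I} (h : a.Runs i b s t) :
    a.f t = 𝓔.tgt (.edge i b : Step X ι) := by
  have := h.2.2.2
  cases b
  · simpa [EdgeSys.tgt] using this.2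
  · simpa [EdgeSys.tgt] using this.2

theorem Runs.start_G {i : ι} {b : Bool} {s t : I} (h : a.Runs i b s t) : a.f s ∈ 𝓔.G := by
  rw [Runs.start_eq h]
  cases b
  · simpa [EdgeSys.src] using end_mem_G i 1 (Or.inr rfl)
  · simpa [EdgeSys.src] using end_mem_G i 0 (Or.inl rfl)

theorem Runs.end_G {i : ι} {b : Bool} {s t : I} (h : a.Runs i b s t) : a.f t ∈ 𝓔.G := by
  rw [Runs.end_eq h]
  cases b
  · simpa [EdgeSys.tgt] using end_mem_G i 0 (Or.inl rfl)
  · simpa [EdgeSys.tgt] using end_mem_G i 1 (Or.inr rfl)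

theorem Runs.mem_E {i : ι} {b : Bool} {s t : I} (h : a.Runs i b s t) : i ∈ a.E := by
  have : 𝓔.o i ⊆ range a.f := by
    rw [← h.2.2.1]
    exact image_subset_range _ _
  exact this

theorem Runs.mem_o {i : ι} {b : Bool} {s t τ : I} (h : a.Runs i b s t) (h1 : s < τ) (h2 : τ < t) :
    a.f τ ∈ 𝓔.o i := by
  rw [← h.2.2.1]
  exact ⟨τ, ⟨h1, h2⟩, rfl⟩

/-- two runs of the same edge overlap -/
theorem Runs.not_le {i : ι} {b b' : Bool} {s t s' t' : I} (h : a.Runs i b s t)
    (h' : a.Runs i b' s' t') : ¬ t ≤ s' := by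
  intro hle
  obtain ⟨τ, h1, h2⟩ := exists_between h.1
  have hm : a.f τ ∈ 𝓔.o i := Runs.mem_o h h1 h2
  rw [← h'.2.2.1] at hm
  obtain ⟨τ', hτ', he⟩ := hm
  have := a.inj he
  rw [this] at hτ'
  exact absurd (h2.trans_le hle) (not_lt.2 hτ'.1.le)

/-- overlapping runs are runs of the same edge -/
theorem Runs.eq_of_overlap {i j : ι} {b b' : Bool} {s t s' t' : I} (h : a.Runs i b s t)
    (h' : a.Runs j b' s' t') (h1 : s < t') (h2 : s' < t) : i = j := by
  have hlt : max s s' < min t t' := by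
    rw [max_lt_iff, lt_min_iff, lt_min_iff]
    exact ⟨⟨h.1, h1⟩, ⟨h2, h'.1⟩⟩
  obtain ⟨τ, hτ1, hτ2⟩ := exists_between hlt
  rw [max_lt_iff] at hτ1
  rw [lt_min_iff] at hτ2
  exact o_eq_of_mem (Runs.mem_o h hτ1.1 hτ2.1) (Runs.mem_o h' hτ1.2 hτ2.2)

/-- a ground time is not inside a run -/
theorem Runs.ground {i : ι} {b : Bool} {s t τ : I} (h : a.Runs i b s t) (hτ : a.f τ ∈ 𝓔.G) :
    t ≤ τ ∨ τ ≤ s := by
  by_contra hcon
  push Not at hcon
  exact not_mem_o_of_G hτ i (Runs.mem_o h hcon.2 hcon.1)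

variable {η : ℝ} {F : Set ι}

theorem Along.le {s t : I} {w : List (Step X ι)} (h : 𝓔.Along a η F s w t) : s ≤ t := by
  induction h with
  | nil s _ => exact le_rfl
  | edge i b s t w u hr _ ih => exact hr.1.le.trans ih
  | jump s t w u hst _ _ _ _ _ ih => exact hst.le.trans ih

theorem Along.isW {s t : I} {w : List (Step X ι)} (h : 𝓔.Along a η F s w t) :
    𝓔.IsW (a.f s) w (a.f t) := by
  induction h with
  | nil s _ => exact EdgeSys.IsW.nil _
  | edge i b s t w u hr _ ih =>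
    rw [EdgeSys.IsW.cons_iff]
    refine ⟨Runs.start_eq hr, ?_⟩
    rw [← Runs.end_eq hr]
    exact ih
  | jump s t w u hst _ _ _ _ _ ih =>
    rw [EdgeSys.IsW.cons_iff]
    exact ⟨rfl, ih⟩

theorem Along.supW_sub {s t : I} {w : List (Step X ι)} (h : 𝓔.Along a η F s w t) :
    𝓔.supW w ⊆ a.f '' Icc s t := by
  induction h with
  | nil s _ => simp
  | edge i b s t w u hr hal ih =>
    have hle := Along.le hal
    rw [EdgeSys.supW_cons]
    apply union_subset
    · change 𝓔.c i ⊆ _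
      rw [← hr.2.1]
      exact image_mono (Icc_subset_Icc_right hle)
    · exact ih.trans (image_mono (Icc_subset_Icc_left hr.1.le))
  | jump s t w u hst _ _ _ _ hal ih =>
    have hle := Along.le hal
    rw [EdgeSys.supW_cons]
    apply union_subset
    · rintro z (rfl | rfl)
      · exact ⟨s, ⟨le_rfl, hst.le.trans hle⟩, rfl⟩
      · exact ⟨t, ⟨hst.le, hle⟩, rfl⟩
    · exact ih.trans (image_mono (Icc_subset_Icc_left hst.le))

theorem Along.good {s t : I} {w : List (Step X ι)} (h : 𝓔.Along a η F s w t) :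
    ∀ st ∈ w, 𝓔.GoodStep η st := by
  induction h with
  | nil s _ => simp
  | edge i b s t w u hr hal ih =>
    intro st hst
    rcases List.mem_cons.1 hst with rfl | hst
    · trivial
    · exact ih st hst
  | jump s t w u hst hs ht hsm _ hal ih =>
    intro st hst'
    rcases List.mem_cons.1 hst' with rfl | hst'
    · exact ⟨hs, ht, hsm _ ⟨s, ⟨le_rfl, hst.le⟩, rfl⟩ _ ⟨t, ⟨hst.le, le_rfl⟩, rfl⟩⟩
    · exact ih st hst'

theorem Along.items {s t : I} {w : List (Step X ι)} (h : 𝓔.Along a η F s w t) :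
    ∀ x ∈ Pool.Agent.EU.items w, ∃ i b s' t', x = Sum.inl i ∧ a.Runs i b s' t' ∧ s ≤ s' ∧ t' ≤ t := by
  induction h with
  | nil s _ => simp
  | edge i b s t w u hr hal ih =>
    intro x hx
    have hx' : x = Sum.inl i ∨ x ∈ Pool.Agent.EU.items w := by
      simpa [Pool.Agent.EU.items, Step.item] using hx
    rcases hx' with rfl | hx'
    · exact ⟨i, b, s, t, rfl, hr, le_rfl, Along.le hal⟩
    · obtain ⟨j, b', s', t', h1, h2, h3, h4⟩ := ih x hx'
      exact ⟨j, b', s', t', h1, h2, hr.1.le.trans h3, h4⟩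
  | jump s t w u hst hs ht hsm _ hal ih =>
    intro x hx
    have hx' : x ∈ Pool.Agent.EU.items w := by
      simpa [Pool.Agent.EU.items, Step.item] using hx
    obtain ⟨j, b', s', t', h1, h2, h3, h4⟩ := ih x hx'
    exact ⟨j, b', s', t', h1, h2, hst.le.trans h3, h4⟩

theorem Along.nodup {s t : I} {w : List (Step X ι)} (h : 𝓔.Along a η F s w t) :
    (Pool.Agent.EU.items w).Nodup := by
  induction h with
  | nil s _ => simp
  | edge i b s t w u hr hal ih =>
    have : Pool.Agent.EU.items (Step.edge i b :: w) = Sum.inl i :: Pool.Agent.EU.items w := by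
      simp [Pool.Agent.EU.items, Step.item]
    rw [this, List.nodup_cons]
    refine ⟨fun hmem => ?_, ih⟩
    obtain ⟨j, b', s', t', h1, h2, h3, h4⟩ := Along.items hal _ hmem
    have hij : i = j := by simpa using h1
    subst hij
    exact Runs.not_le hr h2 h3
  | jump s t w u hst hs ht hsm _ hal ih =>
    have : Pool.Agent.EU.items (Step.jump (a.f s) (a.f t) :: w) = Pool.Agent.EU.items w := rfl
    rw [this]
    exact ih

/-- a run of an edge of `F` inside the interval is a step of the walk -/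
theorem Along.mem_items {s t : I} {w : List (Step X ι)} (h : 𝓔.Along a η F s w t) :
    ∀ i ∈ F, ∀ b s' t', a.Runs i b s' t' → s ≤ s' → t' ≤ t →
      (Sum.inl i : ι ⊕ ℕ) ∈ Pool.Agent.EU.items w := by
  induction h with
  | nil s _ =>
    intro i _ b s' t' hr h1 h2
    exact absurd (hr.1.trans_le h2) (not_lt.2 h1)
  | edge j c s t w u hr hal ih =>
    intro i hi b s' t' hr' h1 h2
    by_cases hlt : s' < t
    · have := Runs.eq_of_overlap hr hr' (h1.trans_lt hr'.1) hlt
      subst this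
      simp [Pool.Agent.EU.items, Step.item]
    · have := ih i hi b s' t' hr' (not_lt.1 hlt) h2
      simp only [Pool.Agent.EU.items, Step.item, List.filterMap_cons] at this ⊢
      exact List.mem_cons_of_mem _ this
  | jump s t w u hst hs ht hsm hno hal ih =>
    intro i hi b s' t' hr' h1 h2
    rcases Runs.ground hr' ht with h | h
    · exact absurd ⟨h1, h⟩ (hno i hi b s' t' hr')
    · have := ih i hi b s' t' hr' h h2
      simpa [Pool.Agent.EU.items, Step.item] using this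

/-- the walk is close to every point of the interval -/
theorem Along.dense {s t : I} {w : List (Step X ι)} (h : 𝓔.Along a η F s w t) (hη : 0 ≤ η) :
    s < t → ∀ τ, s ≤ τ → τ ≤ t → ∃ y ∈ 𝓔.supW w, dist (a.f τ) y ≤ η := by
  induction h with
  | nil s _ => intro h; exact absurd h (lt_irrefl _)
  | edge i b s t w u hr hal ih =>
    intro _ τ h1 h2
    by_cases hτ : τ ≤ t
    · refine ⟨a.f τ, ?_, by simpa using hη⟩
      rw [EdgeSys.supW_cons]
      left
      change a.f τ ∈ 𝓔.c i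
      rw [← hr.2.1]
      exact ⟨τ, ⟨h1, hτ⟩, rfl⟩
    · push Not at hτ
      obtain ⟨y, hy, hd⟩ := ih (hτ.trans_le h2) τ hτ.le h2
      exact ⟨y, by rw [EdgeSys.supW_cons]; exact Or.inr hy, hd⟩
  | jump s t w u hst hs ht hsm hno hal ih =>
    intro _ τ h1 h2
    by_cases hτ : τ ≤ t
    · refine ⟨a.f s, ?_, hsm _ ⟨τ, ⟨h1, hτ⟩, rfl⟩ _ ⟨s, ⟨le_rfl, hst.le⟩, rfl⟩⟩
      rw [EdgeSys.supW_cons]
      left
      exact Or.inl rfl
    · push Not at hτ
      obtain ⟨y, hy, hd⟩ := ih (hτ.trans_le h2) τ hτ.le h2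
      exact ⟨y, by rw [EdgeSys.supW_cons]; exact Or.inr hy, hd⟩

end arc

end Pool.Agent.EU.H13
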