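import Pool.Agent.Helper13_EU.ContFull

/-! # Module CONT -/

open Set Metric Topology unitInterval

noncomputable section

namespace Pool.Agent.EU.H13

open EdgeSys (build)

universe u v

variable {X : Type u} [MetricSpace X] {ι : Type v} {𝓔 : EdgeSys X ι}

/-! ## interleaving -/

/-- `c0 ++ w1 ++ c1 ++ w2 ++ ...` -/
def interl {α : Type*} : List (List α) → List (List α) → List α
  | [], _ => []
  | c :: _, [] => c
  | c :: cs, w :: ws => c ++ w ++ interl cs ws

theorem asm_interl (ws : List (List (Step X ι))) : ∀ (c : List (Step X ι))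
    (cs : List (List (Step X ι))), cs.length = ws.length →
    Asm (Multiset.ofList (c :: cs) + Multiset.ofList ws) {interl (c :: cs) ws} := by
  induction ws with
  | nil =>
    intro c cs h
    have : cs = [] := List.length_eq_zero_iff.1 h
    subst this
    simp only [interl, Multiset.coe_nil, add_zero, Multiset.coe_singleton]
    exact Asm.refl _
  | cons w ws ih =>
    intro c cs h
    cases cs with
    | nil => simp at h
    | cons c' cs =>
      simp only [List.length_cons, Nat.add_right_cancel_iff] at h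
      have h1 : (Multiset.ofList (c :: c' :: cs) + Multiset.ofList (w :: ws))
          = ({c} + {w}) + (Multiset.ofList (c' :: cs) + Multiset.ofList ws) := by
        rw [← Multiset.cons_coe c, ← Multiset.cons_coe w, ← Multiset.singleton_add,
          ← Multiset.singleton_add]
        abel
      rw [h1]
      have h2 := Asm.join2 c w
      have h3 := Asm.join2 (c ++ w) (interl (c' :: cs) ws)
      exact (Asm.add h2 (ih c' cs h)).trans h3

/-- cut at the closed walks of level `< k` -/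
def cuts (k : ℕ) (bw : I → I → List (Step X ι)) :
    I → List (I × ℕ × List (Step X ι)) → List (Step X ι) × List (List (Step X ι))
  | s, [] => (bw s 1, [])
  | s, (t, l, w) :: L =>
    if l < k then (bw s t, (cuts k bw t L).1 :: (cuts k bw t L).2)
    else (bw s t ++ w ++ (cuts k bw t L).1, (cuts k bw t L).2)

theorem cuts_spec (k : ℕ) (bw : I → I → List (Step X ι)) (L : List (I × ℕ × List (Step X ι))) :
    ∀ s : I, (cuts k bw s L).2.length = (L.filter (fun p => p.2.1 < k)).length ∧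
      build bw s L = interl ((cuts k bw s L).1 :: (cuts k bw s L).2)
        ((L.filter (fun p => p.2.1 < k)).map (fun p => p.2.2)) := by
  induction L with
  | nil => intro s; exact ⟨rfl, rfl⟩
  | cons p L ih =>
    intro s
    obtain ⟨t, l, w⟩ := p
    obtain ⟨h1, h2⟩ := ih t
    by_cases hl : l < k
    · simp only [cuts, hl, if_true, List.filter_cons, decide_true, List.length_cons, h1,
        List.map_cons, interl, build, h2, and_self]
    · simp only [cuts, hl, if_false, List.filter_cons, decide_false, h1, Bool.false_eq_true,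
        build, h2, true_and]
      cases hws : (L.filter (fun p => p.2.1 < k)) with
      | nil => simp [interl]
      | cons q ws =>
        simp [interl]

/-! ## labelled walks -/

/-- labelled steps -/
abbrev LS (X : Type u) (ι : Type v) := I × Step X ι × I

/-- a labelled step is close to the arc during its time interval -/
def AtomOK (a : 𝓔.Arc) (κ : ℝ) (x : LS X ι) : Prop :=
  x.1 ≤ x.2.2 ∧ a.f x.1 ∈ 𝓔.G ∧ a.f x.2.2 ∈ 𝓔.G ∧
    ∀ z ∈ 𝓔.supp x.2.1, ∃ ρ, x.1 ≤ ρ ∧ ρ ≤ x.2.2 ∧ dist z (a.f ρ) ≤ κ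

/-- labelled walks -/
inductive LW (a : 𝓔.Arc) (κ : ℝ) : I → List (LS X ι) → I → Prop
  | nil (s : I) (h : a.f s ∈ 𝓔.G) : LW a κ s [] s
  | cons (x : LS X ι) (l : List (LS X ι)) (e : I) : AtomOK a κ x → LW a κ x.2.2 l e →
      LW a κ x.1 (x :: l) e

section lw

variable {a : 𝓔.Arc} {κ : ℝ}

theorem LW.le {s e : I} {l : List (LS X ι)} (h : LW a κ s l e) : s ≤ e := by
  induction h with
  | nil s _ => exact le_rfl
  | cons x l e hx _ ih => exact hx.1.trans ih

theorem LW.groundS {s e : I} {l : List (LS X ι)} (h : LW a κ s l e) : a.f s ∈ 𝓔.G := by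
  cases h with
  | nil s h => exact h
  | cons x l e hx _ => exact hx.2.1

theorem LW.groundE {s e : I} {l : List (LS X ι)} (h : LW a κ s l e) : a.f e ∈ 𝓔.G := by
  induction h with
  | nil s h => exact h
  | cons x l e hx _ ih => exact ih

theorem LW.append {s m e : I} {l l' : List (LS X ι)} (h : LW a κ s l m) (h' : LW a κ m l' e) :
    LW a κ s (l ++ l') e := by
  induction h with
  | nil s _ => exact h'
  | cons x l m hx _ ih => exact LW.cons x _ _ hx (ih h')

theorem LW.split {e : I} {l l' : List (LS X ι)} : ∀ {s : I}, LW a κ s (l ++ l') e →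
    ∃ m, LW a κ s l m ∧ LW a κ m l' e := by
  induction l with
  | nil =>
    intro s h
    exact ⟨s, LW.nil s (LW.groundS h), h⟩
  | cons x l ih =>
    intro s h
    rw [List.cons_append] at h
    cases h with
    | cons _ _ _ hx h =>
      obtain ⟨m, h1, h2⟩ := ih h
      exact ⟨m, LW.cons x l m hx h1, h2⟩

theorem LW.mem {s e : I} {l : List (LS X ι)} (h : LW a κ s l e) :
    ∀ x ∈ l, s ≤ x.1 ∧ x.2.2 ≤ e ∧ AtomOK a κ x := by
  induction h with
  | nil s _ => simp
  | cons x l e hx hl ih =>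
    intro y hy
    rcases List.mem_cons.1 hy with rfl | hy
    · exact ⟨le_rfl, LW.le hl, hx⟩
    · obtain ⟨h1, h2, h3⟩ := ih y hy
      exact ⟨hx.1.trans h1, h2, h3⟩

theorem LW.sup {s e : I} {l : List (LS X ι)} (h : LW a κ s l e) :
    ∀ z ∈ 𝓔.supW (l.map (fun x => x.2.1)), ∃ ρ, s ≤ ρ ∧ ρ ≤ e ∧ dist z (a.f ρ) ≤ κ := by
  rintro z ⟨st, hst, hz⟩
  obtain ⟨x, hx, rfl⟩ := List.mem_map.1 hst
  obtain ⟨h1, h2, h3⟩ := LW.mem h x hx
  obtain ⟨ρ, h4, h5, h6⟩ := h3.2.2.2 z hz
  exact ⟨ρ, h1.trans h4, h5.trans h2, h6⟩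

/-- labelled version of a walk along an arc -/
theorem Along.label {η : ℝ} {F : Set ι} (hκ : 0 ≤ κ) {s t : I} {w : List (Step X ι)}
    (h : 𝓔.Along a η F s w t) :
    ∃ l : List (LS X ι), LW a κ s l t ∧ w = l.map (fun x => x.2.1) ∧
      ∀ i ∈ F, ∀ b s' t', a.Runs i b s' t' → s ≤ s' → t' ≤ t →
        ∃ c s1 t1, a.Runs i c s1 t1 ∧ (s1, Step.edge i c, t1) ∈ l := by
  induction h with
  | nil s hs =>
    refine ⟨[], LW.nil s hs, rfl, ?_⟩
    intro i _ b s' t' hr h1 h2
    exact absurd (hr.1.trans_le h2) (not_lt.2 h1)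
  | edge j c s t w u hr hal ih =>
    obtain ⟨l, h1, h2, h3⟩ := ih
    refine ⟨(s, Step.edge j c, t) :: l, LW.cons (s, Step.edge j c, t) l u ?_ h1, by simp [h2], ?_⟩
    · refine ⟨hr.1.le, Runs.start_G hr, Runs.end_G hr, ?_⟩
      intro z hz
      change z ∈ 𝓔.c j at hz
      rw [← hr.2.1] at hz
      obtain ⟨ρ, hρ, rfl⟩ := hz
      exact ⟨ρ, hρ.1, hρ.2, by simpa using hκ⟩
    · intro i hi b s' t' hr' h4 h5
      by_cases hlt : s' < t
      · have := Runs.eq_of_overlap hr hr' (h4.trans_lt hr'.1) hlt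
        subst this
        exact ⟨c, s, t, hr, List.mem_cons_self⟩
      · obtain ⟨c', s1, t1, h6, h7⟩ := h3 i hi b s' t' hr' (not_lt.1 hlt) h5
        exact ⟨c', s1, t1, h6, List.mem_cons_of_mem _ h7⟩
  | jump s t w u hst hs ht hsm hno hal ih =>
    obtain ⟨l, h1, h2, h3⟩ := ih
    refine ⟨(s, Step.jump (a.f s) (a.f t), t) :: l,
      LW.cons (s, Step.jump (a.f s) (a.f t), t) l u ?_ h1, by simp [h2], ?_⟩
    · refine ⟨hst.le, hs, ht, ?_⟩
      rintro z (rfl | rfl)
      · exact ⟨s, le_rfl, hst.le, by simpa using hκ⟩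
      · exact ⟨t, hst.le, le_rfl, by simpa using hκ⟩
    · intro i hi b s' t' hr' h4 h5
      rcases Runs.ground hr' ht with h | h
      · exact absurd ⟨h4, h⟩ (hno i hi b s' t' hr')
      · obtain ⟨c', s1, t1, h6, h7⟩ := h3 i hi b s' t' hr' h h5
        exact ⟨c', s1, t1, h6, List.mem_cons_of_mem _ h7⟩

/-- labelled version of a closed walk inserted at the time `τ` -/
theorem label_closed (τ : I) (hτ : a.f τ ∈ 𝓔.G) (w : List (Step X ι))
    (hw : 𝓔.supW w ⊆ closedBall (a.f τ) κ) : LW a κ τ (w.map (fun st => (τ, st, τ))) τ := by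
  induction w with
  | nil => exact LW.nil τ hτ
  | cons st w ih =>
    rw [EdgeSys.supW_cons] at hw
    refine LW.cons (τ, st, τ) _ τ ⟨le_rfl, hτ, hτ, fun z hz => ⟨τ, le_rfl, le_rfl, ?_⟩⟩
      (ih fun z hz => hw (Or.inr hz))
    exact hw (Or.inl hz)

end lw

/-! ## pieces -/

/-- data of a piece: from the time `s` to the time `e` -/
structure PieceOK (a : 𝓔.Arc) (κ : ℝ) (F : Set ι) (s : I) (l : List (LS X ι)) (e : I) : Prop where
  lw : LW a κ s l e
  isW : 𝓔.IsW (a.f s) (l.map (fun x => x.2.1)) (a.f e)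
  runs : ∀ i ∈ F, ∀ b s' t', a.Runs i b s' t' → s ≤ s' → t' ≤ e →
    ∃ c s1 t1, a.Runs i c s1 t1 ∧ (s1, Step.edge i c, t1) ∈ l

theorem PieceOK.append {a : 𝓔.Arc} {κ : ℝ} {F : Set ι} {s m e : I} {l l' : List (LS X ι)}
    (h : PieceOK a κ F s l m) (h' : PieceOK a κ F m l' e) : PieceOK a κ F s (l ++ l') e where
  lw := h.lw.append h'.lw
  isW := by
    rw [List.map_append]
    exact h.isW.append h'.isW
  runs := by
    intro i hi b s' t' hr h1 h2
    rcases Runs.ground hr (LW.groundE h.lw) with h3 | h3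
    · obtain ⟨c, s1, t1, h4, h5⟩ := h.runs i hi b s' t' hr h1 h3
      exact ⟨c, s1, t1, h4, List.mem_append_left _ h5⟩
    · obtain ⟨c, s1, t1, h4, h5⟩ := h'.runs i hi b s' t' hr h3 h2
      exact ⟨c, s1, t1, h4, List.mem_append_right _ h5⟩

section main

variable {a : 𝓔.Arc} {η : ℝ} {F : Set ι} {bw : I → I → List (Step X ι)} {κ : ℝ} {k : ℕ}

/-- the first piece of a build started at `s` -/
def Head (a : 𝓔.Arc) (κ : ℝ) (F : Set ι) (k : ℕ) (s : I) (L : List (I × ℕ × List (Step X ι)))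
    (c : List (Step X ι)) : Prop :=
  ∃ (e : I) (l : List (LS X ι)), PieceOK a κ F s l e ∧ c = l.map (fun x => x.2.1) ∧
    ∀ p ∈ L, k ≤ p.2.1 → p.1 < e → ∀ st ∈ p.2.2, (p.1, st, p.1) ∈ l

/-- the other pieces -/
def Tail (a : 𝓔.Arc) (κ : ℝ) (F : Set ι) (k : ℕ) (s : I) (L : List (I × ℕ × List (Step X ι)))
    (c : List (Step X ι)) : Prop :=
  ∃ (s0 e : I) (l : List (LS X ι)), s ≤ s0 ∧ PieceOK a κ F s0 l e ∧ c = l.map (fun x => x.2.1) ∧
    ∀ p ∈ L, k ≤ p.2.1 → s0 < p.1 → p.1 < e → ∀ st ∈ p.2.2, (p.1, st, p.1) ∈ l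

theorem Head.tail {s : I} {L : List (I × ℕ × List (Step X ι))} {c : List (Step X ι)}
    (h : Head a κ F k s L c) : Tail a κ F k s L c := by
  obtain ⟨e, l, h1, h2, h3⟩ := h
  exact ⟨s, e, l, le_rfl, h1, h2, fun p hp hk _ he => h3 p hp hk he⟩

theorem piece_bw (hκ : 0 ≤ κ) {s t : I} {w : List (Step X ι)} (h : 𝓔.Along a η F s w t) :
    ∃ l, PieceOK a κ F s l t ∧ w = l.map (fun x : LS X ι => x.2.1) := by
  obtain ⟨l, h1, h2, h3⟩ := Along.label (κ := κ) hκ h
  exact ⟨l, ⟨h1, h2 ▸ Along.isW h, h3⟩, h2⟩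

theorem piece_closed {τ : I} (hτ : a.f τ ∈ 𝓔.G) {w : List (Step X ι)}
    (hw : 𝓔.supW w ⊆ closedBall (a.f τ) κ) (hc : 𝓔.IsW (a.f τ) w (a.f τ)) :
    PieceOK a κ F τ (w.map (fun st => (τ, st, τ))) τ := by
  refine ⟨label_closed τ hτ w hw, ?_, ?_⟩
  · rw [List.map_map]
    simpa [Function.comp_def] using hc
  · intro i _ b s' t' hr h1 h2
    exact absurd (hr.1.trans_le h2) (not_lt.2 h1)

theorem cuts_pieces (hbw : ∀ s t : I, s ≤ t → a.f s ∈ 𝓔.G → a.f t ∈ 𝓔.G →
      𝓔.Along a η F s (bw s t) t) (hκ : 0 ≤ κ) (L : List (I × ℕ × List (Step X ι))) :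
    ∀ s : I, Ok a s L → (∀ p ∈ L, k ≤ p.2.1 → 𝓔.supW p.2.2 ⊆ closedBall (a.f p.1) κ) →
      Head a κ F k s L (cuts k bw s L).1 ∧ ∀ c ∈ (cuts k bw s L).2, Tail a κ F k s L c := by
  induction L with
  | nil =>
    intro s h _
    obtain ⟨l, h1, h2⟩ := piece_bw (κ := κ) hκ (hbw s 1 le_top h.ground a.h1)
    exact ⟨⟨1, l, h1, h2, by simp⟩, by simp [cuts]⟩
  | cons p L ih =>
    intro s h hball
    obtain ⟨t, lv, w⟩ := p
    have hcl := h.closed _ List.mem_cons_self
    have hst : s ≤ t := h.le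
    obtain ⟨hh, ht⟩ := ih t h.tail fun p hp => hball p (List.mem_cons_of_mem _ hp)
    obtain ⟨l0, h1, h2⟩ := piece_bw (κ := κ) hκ (hbw s t hst h.ground hcl.1)
    have hge : ∀ p ∈ L, t ≤ p.1 := h.tail.ge
    have hTail : ∀ c, Tail a κ F k t L c → (lv < k ∨ True) → Tail a κ F k s ((t, lv, w) :: L) c := by
      rintro c ⟨s0, e, l, g1, g2, g3, g4⟩ _
      refine ⟨s0, e, l, hst.trans g1, g2, g3, ?_⟩
      intro p hp hk hs0 he
      rcases List.mem_cons.1 hp with rfl | hp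
      · exact absurd g1 (not_le.2 hs0)
      · exact g4 p hp hk hs0 he
    by_cases hl : lv < k
    · simp only [cuts, hl, if_true]
      refine ⟨⟨t, l0, h1, h2, ?_⟩, ?_⟩
      · intro p hp _ hpt
        rcases List.mem_cons.1 hp with rfl | hp
        · exact absurd hpt (lt_irrefl _)
        · exact absurd (hge p hp) (not_le.2 hpt)
      · intro c hc
        rcases List.mem_cons.1 hc with rfl | hc
        · exact hTail _ hh.tail (Or.inr trivial)
        · exact hTail _ (ht c hc) (Or.inr trivial)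
    · simp only [cuts, hl, if_false]
      refine ⟨?_, fun c hc => hTail c (ht c hc) (Or.inr trivial)⟩
      obtain ⟨e, l, g1, g2, g3⟩ := hh
      have hclp : PieceOK a κ F t (w.map (fun st => ((t, st, t) : LS X ι))) t :=
        piece_closed hcl.1 (hball _ List.mem_cons_self (not_lt.1 hl)) hcl.2
      refine ⟨e, l0 ++ (w.map (fun st => ((t, st, t) : LS X ι))) ++ l,
        (h1.append hclp).append g1, ?_, ?_⟩
      · rw [List.map_append, List.map_append, List.map_map, ← h2, ← g2]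
        simp [Function.comp_def]
      · intro p hp hk hpe st hst'
        rcases List.mem_cons.1 hp with rfl | hp
        · exact List.mem_append_left _ (List.mem_append_right _ (List.mem_map.2 ⟨st, hst', rfl⟩))
        · exact List.mem_append_right _ (g3 p hp hk hpe st hst')

end main

/-! ## pieces are basic -/

theorem piece_basic {a : 𝓔.Arc} {κ θ : ℝ} {F : Set ι} {E : Set (ι ⊕ ℕ)} {Fk : Set ι} {Tk : Set I}
    (hκ : 0 ≤ κ) (hθ : 0 ≤ θ) (hfine : 𝓔.Fine a Fk Tk θ) (hFk : Fk ⊆ F)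
    (hE : ∀ i ∈ Fk, Sum.inl i ∈ E) {s e : I} {l : List (LS X ι)} (h : PieceOK a κ F s l e)
    (hT : ∀ τ ∈ Tk, s < τ → τ < e → ∃ st x, st.item = some x ∧ x ∈ E ∧ (τ, st, τ) ∈ l) :
    𝓔.Basic E (2 * κ + θ) θ (l.map (fun x => x.2.1)) := by
  -- the key estimate for infixes
  have key : ∀ l1 l2 l3, l = l1 ++ l2 ++ l3 →
      (∀ x ∈ items (l2.map (fun x : LS X ι => x.2.1)), x ∉ E) →
      ∃ mA mB, LW a κ s l1 mA ∧ LW a κ mA l2 mB ∧ LW a κ mB l3 e ∧ Small θ (a.f '' Icc mA mB) := by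
    intro l1 l2 l3 hl hav
    have hlw := h.lw
    rw [hl] at hlw
    obtain ⟨mB, h12, h3⟩ := LW.split hlw
    obtain ⟨mA, h1, h2⟩ := LW.split h12
    refine ⟨mA, mB, h1, h2, h3, ?_⟩
    apply hfine mA mB (LW.le h2) (LW.groundS h2) (LW.groundE h2)
    · rintro i hi b s' t' hr ⟨g1, g2⟩
      obtain ⟨c, s1, t1, hr1, hm⟩ := h.runs i (hFk hi) b s' t' hr ((LW.le h1).trans g1)
        (g2.trans (LW.le h3))
      rw [hl, List.mem_append, List.mem_append] at hm
      rcases hm with (hm | hm) | hm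
      · have := (LW.mem h1 _ hm).2.1
        exact Runs.not_le hr1 hr (this.trans g1)
      · apply hav (Sum.inl i) _ (hE i hi)
        rw [mem_items]
        exact ⟨Step.edge i c, List.mem_map.2 ⟨_, hm, rfl⟩, rfl⟩
      · have := (LW.mem h3 _ hm).1
        exact Runs.not_le hr hr1 (g2.trans this)
    · rintro τ hτ ⟨g1, g2⟩
      obtain ⟨st, x, hx, hxE, hm⟩ := hT τ hτ ((LW.le h1).trans_lt g1) (g2.trans_le (LW.le h3))
      rw [hl, List.mem_append, List.mem_append] at hm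
      rcases hm with (hm | hm) | hm
      · exact absurd (LW.mem h1 _ hm).2.1 (not_le.2 g1)
      · apply hav x _ hxE
        rw [mem_items]
        exact ⟨st, List.mem_map.2 ⟨_, hm, rfl⟩, hx⟩
      · exact absurd (LW.mem h3 _ hm).1 (not_le.2 g2)
  -- splitting of the list of steps
  have split3 : ∀ w1 w2 w3, l.map (fun x => x.2.1) = w1 ++ w2 ++ w3 →
      ∃ l1 l2 l3, l = l1 ++ l2 ++ l3 ∧ l1.map (fun x => x.2.1) = w1 ∧
        l2.map (fun x => x.2.1) = w2 ∧ l3.map (fun x => x.2.1) = w3 := by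
    intro w1 w2 w3 hw
    obtain ⟨l12, l3, e1, e2, e3⟩ := List.map_eq_append_iff.1 hw
    obtain ⟨l1, l2, e4, e5, e6⟩ := List.map_eq_append_iff.1 e2
    exact ⟨l1, l2, l3, by rw [e1, e4], e5, e6, e3⟩
  intro x y hxy
  by_cases hnil : l.map (fun x => x.2.1) = []
  · rw [hnil] at hxy ⊢
    rw [EdgeSys.IsW.nil_iff] at hxy
    subst hxy
    refine ⟨fun _ => by simpa using hθ, ?_, ?_, ?_⟩
    · intro w1 w2 hw _
      have : w1 = [] := (List.append_eq_nil_iff.1 hw.symm).1
      subst this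
      simp
    · intro w1 w2 hw _
      have : w2 = [] := (List.append_eq_nil_iff.1 hw.symm).2
      subst this
      simp
    · intro w1 w2 w3 hw _
      have h1 := (List.append_eq_nil_iff.1 hw.symm).1
      have : w2 = [] := (List.append_eq_nil_iff.1 h1).2
      subst this
      intro z hz
      simp at hz
  · have hx : x = a.f s := EdgeSys.IsW.start_unique hnil hxy h.isW
    subst hx
    have hy : y = a.f e := EdgeSys.IsW.end_unique hxy h.isW
    subst hy
    refine ⟨?_, ?_, ?_, ?_⟩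
    · intro hav
      obtain ⟨mA, mB, h1, h2, h3, h4⟩ := key [] l [] (by simp) hav
      cases h1
      cases h3
      exact h4 _ ⟨s, ⟨le_rfl, LW.le h2⟩, rfl⟩ _ ⟨e, ⟨LW.le h2, le_rfl⟩, rfl⟩
    · intro w1 w2 hw hav z hz
      obtain ⟨l1, l2, l3, e1, e2, e3, e4⟩ := split3 [] w1 w2 (by simpa using hw)
      have : l1 = [] := List.map_eq_nil_iff.1 e2
      subst this
      subst e3
      obtain ⟨mA, mB, h1, h2, h3, h4⟩ := key [] l2 l3 e1 hav
      cases h1
      obtain ⟨ρ, h5, h6, h7⟩ := LW.sup h2 z hz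
      have h8 := h4 _ ⟨ρ, ⟨h5, h6⟩, rfl⟩ _ ⟨s, ⟨le_rfl, LW.le h2⟩, rfl⟩
      rw [mem_closedBall]
      linarith [dist_triangle z (a.f ρ) (a.f s)]
    · intro w1 w2 hw hav z hz
      obtain ⟨l1, l2, l3, e1, e2, e3, e4⟩ := split3 w1 w2 [] (by simpa using hw)
      have : l3 = [] := List.map_eq_nil_iff.1 e4
      subst this
      subst e3
      obtain ⟨mA, mB, h1, h2, h3, h4⟩ := key l1 l2 [] e1 hav
      cases h3
      obtain ⟨ρ, h5, h6, h7⟩ := LW.sup h2 z hz
      have h8 := h4 _ ⟨ρ, ⟨h5, h6⟩, rfl⟩ _ ⟨e, ⟨LW.le h2, le_rfl⟩, rfl⟩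
      rw [mem_closedBall]
      linarith [dist_triangle z (a.f ρ) (a.f e)]
    · intro w1 w2 w3 hw hav z hz z' hz'
      obtain ⟨l1, l2, l3, e1, e2, e3, e4⟩ := split3 w1 w2 w3 hw
      subst e3
      obtain ⟨mA, mB, h1, h2, h3, h4⟩ := key l1 l2 l3 e1 hav
      obtain ⟨ρ, h5, h6, h7⟩ := LW.sup h2 z hz
      obtain ⟨ρ', h5', h6', h7'⟩ := LW.sup h2 z' hz'
      have h8 := h4 _ ⟨ρ, ⟨h5, h6⟩, rfl⟩ _ ⟨ρ', ⟨h5', h6'⟩, rfl⟩
      rw [dist_comm] at h7'
      linarith [dist_triangle z (a.f ρ) z', dist_triangle (a.f ρ) (a.f ρ') z']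

theorem cont (𝓔 : EdgeSys X ι) : 𝓔.ContStmt := by
  intro a η F bw L k κ θ E Fk Tk hbw hsort hcl hball hκ hθ hfine hFk hE hTk
  have hok : Ok a 0 L := ⟨a.h0, hsort, fun p _ => bot_le, hcl⟩
  obtain ⟨hlen, hbuild⟩ := cuts_spec k bw L 0
  obtain ⟨hhead, htail⟩ := cuts_pieces (k := k) hbw hκ L 0 hok hball
  refine ⟨Multiset.ofList ((cuts k bw 0 L).1 :: (cuts k bw 0 L).2), ?_, ?_, ?_⟩
  · rw [hbuild]
    exact asm_interl _ _ _ (by rw [hlen, List.length_map])
  · rw [Multiset.coe_card, List.length_cons, hlen]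
    omega
  · intro w hw
    have hT : Tail a κ F k 0 L w := by
      rcases List.mem_cons.1 (Multiset.mem_coe.1 hw) with rfl | hw
      · exact hhead.tail
      · exact htail w hw
    obtain ⟨s0, e, l, _, h1, rfl, h3⟩ := hT
    refine piece_basic hκ hθ hfine hFk hE h1 ?_
    intro τ hτ hs he
    obtain ⟨p, hp, rfl, hk, x, hx, hxE⟩ := hTk τ hτ
    rw [mem_items] at hx
    obtain ⟨st, hst, hi⟩ := hx
    exact ⟨st, x, hi, hxE, h3 p hp hk hs he st hst⟩

end Pool.Agent.EU.H13
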