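import Pool.Agent.Helper13_EU.AlongBasics

/-! # Module CONTFULL -/

open Set Metric Topology unitInterval

noncomputable section

namespace Pool.Agent.EU.H13

open EdgeSys (build)

universe u v

variable {X : Type u} [MetricSpace X] {ι : Type v} {𝓔 : EdgeSys X ι}

/-- the base walks of a build -/
def bases (bw : I → I → List (Step X ι)) :
    I → List (I × ℕ × List (Step X ι)) → List (List (Step X ι))
  | s, [] => [bw s 1]
  | s, (t, _, _) :: L => bw s t :: bases bw t L

theorem asm_bases (bw : I → I → List (Step X ι)) (L : List (I × ℕ × List (Step X ι))) : ∀ s : I,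
    Asm (Multiset.ofList (bases bw s L) + Multiset.ofList (L.map (fun p => p.2.2)))
      {build bw s L} := by
  induction L with
  | nil =>
    intro s
    simp only [bases, build, List.map_nil, Multiset.coe_nil, add_zero, Multiset.coe_singleton]
    exact Asm.refl _
  | cons p L ih =>
    intro s
    obtain ⟨t, l, w⟩ := p
    simp only [bases, build, List.map_cons]
    have h1 : (Multiset.ofList (bw s t :: bases bw t L) +
        Multiset.ofList (w :: L.map (fun p => p.2.2)))
        = ({bw s t} + {w}) + (Multiset.ofList (bases bw t L) +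
          Multiset.ofList (L.map (fun p => p.2.2))) := by
      rw [← Multiset.cons_coe, ← Multiset.cons_coe, ← Multiset.singleton_add,
        ← Multiset.singleton_add]
      abel
    rw [h1]
    have h2 := Asm.join2 (bw s t) w
    have h3 := Asm.join2 (bw s t ++ w) (build bw t L)
    exact (Asm.add h2 (ih t)).trans h3

variable {a : 𝓔.Arc} {η : ℝ} {F : Set ι} {bw : I → I → List (Step X ι)}

/-- all conditions for a build started at the time `s` -/
structure Ok (a : 𝓔.Arc) (s : I) (L : List (I × ℕ × List (Step X ι))) : Prop where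
  ground : a.f s ∈ 𝓔.G
  sorted : L.Pairwise (fun p q => p.1 ≤ q.1)
  ge : ∀ p ∈ L, s ≤ p.1
  closed : ∀ p ∈ L, a.f p.1 ∈ 𝓔.G ∧ 𝓔.IsW (a.f p.1) p.2.2 (a.f p.1)

theorem Ok.tail {s : I} {p : I × ℕ × List (Step X ι)} {L : List (I × ℕ × List (Step X ι))}
    (h : Ok a s (p :: L)) : Ok a p.1 L where
  ground := (h.closed p List.mem_cons_self).1
  sorted := h.sorted.of_cons
  ge := fun q hq => (List.pairwise_cons.1 h.sorted).1 q hq
  closed := fun q hq => h.closed q (List.mem_cons_of_mem _ hq)

theorem Ok.le {s : I} {p : I × ℕ × List (Step X ι)} {L : List (I × ℕ × List (Step X ι))}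
    (h : Ok a s (p :: L)) : s ≤ p.1 := h.ge p List.mem_cons_self

section main

variable (hbw : ∀ s t : I, s ≤ t → a.f s ∈ 𝓔.G → a.f t ∈ 𝓔.G → 𝓔.Along a η F s (bw s t) t)

include hbw

theorem build_isW (L : List (I × ℕ × List (Step X ι))) : ∀ s : I, Ok a s L →
    𝓔.IsW (a.f s) (build bw s L) (a.f 1) := by
  induction L with
  | nil =>
    intro s h
    exact Along.isW (hbw s 1 le_top h.ground a.h1)
  | cons p L ih =>
    intro s h
    obtain ⟨t, l, w⟩ := p
    have h1 := h.closed _ List.mem_cons_self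
    exact ((Along.isW (hbw s t h.le h.ground h1.1)).append h1.2).append (ih t h.tail)

theorem build_supW (L : List (I × ℕ × List (Step X ι))) : ∀ s : I, Ok a s L →
    ∀ z ∈ 𝓔.supW (build bw s L), z ∈ range a.f ∨ ∃ p ∈ L, z ∈ 𝓔.supW p.2.2 := by
  induction L with
  | nil =>
    intro s h z hz
    left
    exact image_subset_range _ _ (Along.supW_sub (hbw s 1 le_top h.ground a.h1) hz)
  | cons p L ih =>
    intro s h z hz
    obtain ⟨t, l, w⟩ := p
    have h1 := h.closed _ List.mem_cons_self
    simp only [build, EdgeSys.supW_append] at hz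
    rcases hz with (hz | hz) | hz
    · left
      exact image_subset_range _ _ (Along.supW_sub (hbw s t h.le h.ground h1.1) hz)
    · exact Or.inr ⟨_, List.mem_cons_self, hz⟩
    · rcases ih t h.tail z hz with h2 | ⟨q, hq, h2⟩
      · exact Or.inl h2
      · exact Or.inr ⟨q, List.mem_cons_of_mem _ hq, h2⟩

/-- items of the base walks -/
theorem bases_items (L : List (I × ℕ × List (Step X ι))) : ∀ s : I, Ok a s L →
    ∀ w ∈ bases bw s L, ∀ x ∈ items w,
      ∃ i b s' t', x = Sum.inl i ∧ a.Runs i b s' t' ∧ s ≤ s' := by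
  induction L with
  | nil =>
    intro s h w hw x hx
    simp only [bases, List.mem_singleton] at hw
    subst hw
    obtain ⟨i, b, s', t', h1, h2, h3, _⟩ := Along.items (hbw s 1 le_top h.ground a.h1) x hx
    exact ⟨i, b, s', t', h1, h2, h3⟩
  | cons p L ih =>
    intro s h w hw x hx
    obtain ⟨t, l, w'⟩ := p
    have h1 := h.closed _ List.mem_cons_self
    simp only [bases, List.mem_cons] at hw
    rcases hw with rfl | hw
    · obtain ⟨i, b, s', t', h1, h2, h3, _⟩ := Along.items (hbw s t h.le h.ground h1.1) x hx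
      exact ⟨i, b, s', t', h1, h2, h3⟩
    · obtain ⟨i, b, s', t', h1, h2, h3⟩ := ih t h.tail w hw x hx
      exact ⟨i, b, s', t', h1, h2, h.le.trans h3⟩

theorem bases_nodup (L : List (I × ℕ × List (Step X ι))) : ∀ s : I, Ok a s L →
    ((bases bw s L).flatMap items).Nodup := by
  induction L with
  | nil =>
    intro s h
    simp only [bases, List.flatMap_cons, List.flatMap_nil, List.append_nil]
    exact Along.nodup (hbw s 1 le_top h.ground a.h1)
  | cons p L ih =>
    intro s h
    obtain ⟨t, l, w'⟩ := p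
    have h1 := h.closed _ List.mem_cons_self
    have hal := hbw s t h.le h.ground h1.1
    simp only [bases, List.flatMap_cons]
    rw [List.nodup_append]
    refine ⟨Along.nodup hal, ih t h.tail, fun x hx y hy hxy => ?_⟩
    subst hxy
    obtain ⟨w, hw, hxw⟩ := List.mem_flatMap.1 hy
    obtain ⟨i, b, s', t', e1, h2, h3, h4⟩ := Along.items hal x hx
    obtain ⟨i', b', s'', t'', e2, h5, h6⟩ := bases_items hbw L t h.tail w hw x hxw
    have hii : i = i' := by
      have := e1.symm.trans e2
      simpa using this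
    subst hii
    exact Runs.not_le h2 h5 (h4.trans h6)

theorem bases_mem (L : List (I × ℕ × List (Step X ι))) : ∀ s : I, Ok a s L →
    ∀ i ∈ F, ∀ b s' t', a.Runs i b s' t' → s ≤ s' →
      ∃ w ∈ bases bw s L, (Sum.inl i : ι ⊕ ℕ) ∈ items w := by
  induction L with
  | nil =>
    intro s h i hi b s' t' hr h1
    exact ⟨_, List.mem_singleton.2 rfl,
      Along.mem_items (hbw s 1 le_top h.ground a.h1) i hi b s' t' hr h1 le_top⟩
  | cons p L ih =>
    intro s h i hi b s' t' hr h1
    obtain ⟨t, l, w'⟩ := p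
    have h2 := h.closed _ List.mem_cons_self
    rcases Runs.ground hr h2.1 with h3 | h3
    · exact ⟨_, List.mem_cons_self,
        Along.mem_items (hbw s t h.le h.ground h2.1) i hi b s' t' hr h1 h3⟩
    · obtain ⟨w, hw, hx⟩ := ih t h.tail i hi b s' t' hr h3
      exact ⟨w, List.mem_cons_of_mem _ hw, hx⟩

theorem bases_good (L : List (I × ℕ × List (Step X ι))) : ∀ s : I, Ok a s L →
    ∀ w ∈ bases bw s L, ∀ st ∈ w, 𝓔.GoodStep η st := by
  induction L with
  | nil =>
    intro s h w hw
    simp only [bases, List.mem_singleton] at hw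
    subst hw
    exact Along.good (hbw s 1 le_top h.ground a.h1)
  | cons p L ih =>
    intro s h w hw
    obtain ⟨t, l, w'⟩ := p
    have h1 := h.closed _ List.mem_cons_self
    simp only [bases, List.mem_cons] at hw
    rcases hw with rfl | hw
    · exact Along.good (hbw s t h.le h.ground h1.1)
    · exact ih t h.tail w hw

theorem bases_dense (hη : 0 ≤ η) (L : List (I × ℕ × List (Step X ι))) : ∀ s : I, Ok a s L →
    s < 1 → ∀ τ, s ≤ τ → ∃ w ∈ bases bw s L, ∃ y ∈ 𝓔.supW w, dist (a.f τ) y ≤ η := by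
  induction L with
  | nil =>
    intro s h hs τ hτ
    obtain ⟨y, hy, hd⟩ := Along.dense (hbw s 1 le_top h.ground a.h1) hη hs τ hτ le_top
    exact ⟨_, List.mem_singleton.2 rfl, y, hy, hd⟩
  | cons p L ih =>
    intro s h hs τ hτ
    obtain ⟨t, l, w'⟩ := p
    have h1 := h.closed _ List.mem_cons_self
    rcases h.le.eq_or_lt with heq | hlt
    · have hs' : t < 1 := by
        change s = t at heq
        rw [← heq]; exact hs
      obtain ⟨w, hw, y, hy, hd⟩ := ih t h.tail hs' τ (by change s = t at heq; rw [← heq]; exact hτ)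
      exact ⟨w, List.mem_cons_of_mem _ hw, y, hy, hd⟩
    · by_cases hτt : τ ≤ t
      · obtain ⟨y, hy, hd⟩ := Along.dense (hbw s t h.le h.ground h1.1) hη hlt τ hτ hτt
        exact ⟨_, List.mem_cons_self, y, hy, hd⟩
      · push Not at hτt
        obtain ⟨w, hw, y, hy, hd⟩ := ih t h.tail (hτt.trans_le le_top) τ hτt.le
        exact ⟨w, List.mem_cons_of_mem _ hw, y, hy, hd⟩

end main

theorem sum_items_ofList (l : List (List (Step X ι))) :
    ((Multiset.ofList l).map (fun w => (items w : Multiset (ι ⊕ ℕ)))).sum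
      = (l.flatMap items : Multiset (ι ⊕ ℕ)) := by
  induction l with
  | nil => simp
  | cons w l ih =>
    rw [← Multiset.cons_coe, Multiset.map_cons, Multiset.sum_cons, ih, List.flatMap_cons,
      ← Multiset.coe_add]

theorem contFull (𝓔 : EdgeSys X ι) (hruns : 𝓔.ArcRunsStmt) : 𝓔.ContFullStmt := by
  intro a η F bw L hη hbw hsort hcl
  have hok : Ok a 0 L := ⟨a.h0, hsort, fun p _ => bot_le, hcl⟩
  have hasm := asm_bases bw L 0
  have htit := hasm.tit_eq
  rw [tit_singleton, tit_add] at htit
  have hsum := sum_items_ofList (bases bw 0 L)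
  have hF : ∀ i ∈ a.E, i ∈ F →
      Sum.inl i ∈ ((Multiset.ofList (bases bw 0 L)).map
        (fun w => (items w : Multiset (ι ⊕ ℕ)))).sum := by
    intro i hi hiF
    obtain ⟨b, s, t, hr⟩ := hruns a i hi
    obtain ⟨w, hw, hx⟩ := bases_mem hbw L 0 hok i hiF b s t hr bot_le
    rw [hsum, Multiset.mem_coe, List.mem_flatMap]
    exact ⟨w, hw, hx⟩
  refine ⟨build_isW hbw L 0 hok, build_supW hbw L 0 hok, ?_, ?_,
    Multiset.ofList (bases bw 0 L), hasm, ?_, ?_, hF, ?_, ?_⟩
  · intro i hi hiF
    have h1 : (Sum.inl i : ι ⊕ ℕ) ∈ (items (build bw 0 L) : Multiset (ι ⊕ ℕ)) := by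
      rw [← htit]
      exact Multiset.mem_add.2 (Or.inl (hF i hi hiF))
    exact h1
  · intro p hp x hx
    have h1 : x ∈ (items (build bw 0 L) : Multiset (ι ⊕ ℕ)) := by
      rw [← htit]
      refine Multiset.mem_add.2 (Or.inr ?_)
      rw [mem_tit]
      exact ⟨p.2.2, Multiset.mem_coe.2 (List.mem_map.2 ⟨p, hp, rfl⟩), hx⟩
    exact h1
  · rw [hsum, Multiset.coe_nodup]
    exact bases_nodup hbw L 0 hok
  · intro x hx
    rw [hsum, Multiset.mem_coe, List.mem_flatMap] at hx
    obtain ⟨w, hw, hx⟩ := hx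
    obtain ⟨i, b, s', t', h1, h2, _⟩ := bases_items hbw L 0 hok w hw x hx
    exact ⟨i, Runs.mem_E h2, h1⟩
  · intro w hw
    exact bases_good hbw L 0 hok w (Multiset.mem_coe.1 hw)
  · intro t
    obtain ⟨w, hw, y, hy, hd⟩ := bases_dense hbw hη L 0 hok zero_lt_one t bot_le
    exact ⟨w, Multiset.mem_coe.2 hw, y, hy, hd⟩

end Pool.Agent.EU.H13
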